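import Pool.Agent.H88.WR.Targets

/-!
Ranges for the weak maximizing property (MP_479f73_an): row HEL, Helly's theorem.
-/

set_option autoImplicit false

open Filter Topology Set

namespace Pool.Agent.H48.WR

open Pool.Agent.H85.WMP Pool.Agent.H88.WR

theorem pf_HEL (𝕜 : Type) [RCLike 𝕜] : T_HEL 𝕜 := by
  intro E _ _ Φ k g hΦ
  let G : E →L[𝕜] (Fin k → 𝕜) := ContinuousLinearMap.pi g
  let K : Submodule 𝕜 E := LinearMap.ker (G : E →ₗ[𝕜] (Fin k → 𝕜))
  have hKc : IsClosed (K : Set E) := by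
    have : (K : Set E) = G ⁻¹' {0} := by
      ext x
      simp [K]
    rw [this]
    exact isClosed_singleton.preimage G.continuous
  have hfin : FiniteDimensional 𝕜 (E ⧸ K) :=
    LinearEquiv.finiteDimensional
      (LinearMap.quotKerEquivRange (G : E →ₗ[𝕜] (Fin k → 𝕜))).symm
  let lam : Module.Dual 𝕜 (Module.Dual 𝕜 (E ⧸ K)) :=
    { toFun := fun f => Φ ((LinearMap.toContinuousLinearMap f).comp K.mkQL)
      map_add' := by
        intro f f'
        rw [← map_add Φ]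
        congr 1
      map_smul' := by
        intro c f
        rw [RingHom.id_apply, ← map_smul Φ]
        congr 1 }
  let q : E ⧸ K := (Module.evalEquiv 𝕜 (E ⧸ K)).symm lam
  have hq : ∀ f : Module.Dual 𝕜 (E ⧸ K),
      f q = Φ ((LinearMap.toContinuousLinearMap f).comp K.mkQL) := by
    intro f
    exact Module.apply_evalEquiv_symm_apply 𝕜 (E ⧸ K) f lam
  have hmk : ‖K.mkQL‖ ≤ 1 := by
    refine ContinuousLinearMap.opNorm_le_bound _ zero_le_one fun x => ?_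
    rw [one_mul]
    exact Submodule.Quotient.norm_mk_le K x
  have hqn : ‖q‖ ≤ ‖Φ‖ := by
    obtain ⟨χ, hχ, hχq⟩ := exists_dual_vector'' 𝕜 q
    have h1 := hq (χ : (E ⧸ K) →ₗ[𝕜] 𝕜)
    have h2 : (LinearMap.toContinuousLinearMap (χ : (E ⧸ K) →ₗ[𝕜] 𝕜)) = χ := by
      ext x
      rfl
    rw [h2] at h1
    have h3 : ‖(‖q‖ : 𝕜)‖ = ‖q‖ := by simp
    have h4 : (‖q‖ : 𝕜) = Φ (χ.comp K.mkQL) := by
      rw [← hχq]
      exact h1
    calc ‖q‖ = ‖Φ (χ.comp K.mkQL)‖ := by rw [← h3, h4]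
      _ ≤ ‖Φ‖ * ‖χ.comp K.mkQL‖ := Φ.le_opNorm _
      _ ≤ ‖Φ‖ * (‖χ‖ * ‖K.mkQL‖) := by
          gcongr
          exact ContinuousLinearMap.opNorm_comp_le _ _
      _ ≤ ‖Φ‖ * (1 * 1) := by gcongr
      _ = ‖Φ‖ := by ring
  obtain ⟨y, hy, hyn⟩ := Submodule.Quotient.norm_mk_lt q (ε := 1 - ‖Φ‖) (by linarith)
  refine ⟨y, by linarith, fun i => ?_⟩
  have hle : K ≤ LinearMap.ker (g i : E →ₗ[𝕜] 𝕜) := by
    intro x hx
    have h1 : G x = 0 := hx
    have h2 : G x i = 0 := by rw [h1]; rfl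
    exact h2
  have h5 := hq (K.liftQ (g i : E →ₗ[𝕜] 𝕜) hle)
  rw [← hy, Submodule.liftQ_apply] at h5
  rw [show g i y = (g i : E →ₗ[𝕜] 𝕜) y from rfl, h5]
  congr 1

end Pool.Agent.H48.WR
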