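import Pool.Agent.H88.WR.Targets
import Pool.Agent.H42.WR.REN

/-!
Ranges for the weak maximizing property (MP_479f73_an): row RED, a new norm on the domain.
-/

set_option autoImplicit false

open Filter Topology Set

namespace Pool.Agent.H48.WR

open Pool.Agent.H85.WMP Pool.Agent.H88.WR

theorem pf_RED (𝕜 : Type) [RCLike 𝕜] : T_RED 𝕜 := by
  intro E _ _ Q r R hr hQ hR
  have h0 : (0 : StrongDual 𝕜 E) ∈ Q := hQ 0 (by rw [norm_zero]; exact hr.le)
  have hR0 : 0 ≤ R := (norm_nonneg _).trans (hR 0 h0)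
  have hb : ∀ x : E, ∀ φ ∈ Q, ‖φ x‖ ≤ R * ‖x‖ := fun x φ hφ =>
    (φ.le_opNorm x).trans (mul_le_mul_of_nonneg_right (hR φ hφ) (norm_nonneg _))
  let p : E → ℝ := fun x => sSup ((fun φ : StrongDual 𝕜 E => ‖φ x‖) '' Q)
  have hne : ∀ x : E, ((fun φ : StrongDual 𝕜 E => ‖φ x‖) '' Q).Nonempty := fun x =>
    ⟨_, mem_image_of_mem _ h0⟩
  have hbd : ∀ x : E, BddAbove ((fun φ : StrongDual 𝕜 E => ‖φ x‖) '' Q) := fun x =>
    ⟨R * ‖x‖, by rintro _ ⟨φ, hφ, rfl⟩; exact hb x φ hφ⟩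
  have hle : ∀ x : E, ∀ φ ∈ Q, ‖φ x‖ ≤ p x := fun x φ hφ =>
    le_csSup (hbd x) (mem_image_of_mem _ hφ)
  have hge : ∀ (x : E) (c : ℝ), (∀ φ ∈ Q, ‖φ x‖ ≤ c) → p x ≤ c := fun x c hc =>
    csSup_le (hne x) (by rintro _ ⟨φ, hφ, rfl⟩; exact hc φ hφ)
  have hp0 : ∀ x : E, 0 ≤ p x := fun x => (norm_nonneg _).trans (hle x 0 h0)
  have hsm : ∀ (c : 𝕜) (x : E), p (c • x) ≤ ‖c‖ * p x := by
    intro c x
    refine hge _ _ fun φ hφ => ?_
    rw [map_smul, smul_eq_mul, norm_mul]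
    exact mul_le_mul_of_nonneg_left (hle x φ hφ) (norm_nonneg c)
  obtain ⟨E', i1, i2, e, he⟩ := Pool.Agent.H42.WR.newnorm 𝕜 E p
    (fun x y => hge _ _ fun φ hφ => by
      rw [map_add]
      exact (norm_add_le _ _).trans (add_le_add (hle x φ hφ) (hle y φ hφ)))
    (fun c x => by
      refine le_antisymm (hsm c x) ?_
      by_cases hc : c = 0
      · subst hc
        rw [norm_zero, zero_mul]
        exact hp0 _
      · have h1 := hsm c⁻¹ (c • x)
        rw [smul_smul, inv_mul_cancel₀ hc, one_smul, norm_inv] at h1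
        have h2 : 0 < ‖c‖ := norm_pos_iff.mpr hc
        rw [inv_mul_eq_div, le_div_iff₀ h2] at h1
        linarith)
    r R hr
    (fun x => by
      obtain ⟨f, hf, hfx⟩ := exists_dual_vector'' 𝕜 x
      have h1 : ((r : 𝕜) • f) ∈ Q := by
        refine hQ _ ?_
        rw [norm_smul, RCLike.norm_ofReal, abs_of_pos hr]
        calc r * ‖f‖ ≤ r * 1 := mul_le_mul_of_nonneg_left hf hr.le
          _ = r := mul_one r
      have h2 := hle x _ h1
      have h3 : ‖((r : 𝕜) • f) x‖ = r * ‖x‖ := by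
        rw [smul_apply, smul_eq_mul, norm_mul, RCLike.norm_ofReal,
          abs_of_pos hr, hfx]
        simp
      rw [h3] at h2
      exact h2)
    (fun x => hge x _ (hb x))
  refine ⟨E', i1, i2, e, fun x => ⟨fun φ hφ => ?_, fun c hc => ?_⟩⟩
  · rw [he]
    exact hle _ φ hφ
  · rw [he]
    exact hge _ c hc

end Pool.Agent.H48.WR
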